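import Pool.Agent.Work.MP_39acf6_an.Q2Main
import Pool.Agent.Work.MP_39acf6_an.H80Main

/-!
The minimal rank `R_{n,d}` does not depend on `d` (for `n, d ≥ 2`), and its exact value:
`2, 5, 8` for `n = 2, 3, 4` and `C(n+1,2) - 1` for `n ≥ 5`.
-/

set_option autoImplicit false
open Pool.Agent.MP_39acf6_an

namespace Pool.Agent.Results.MP_39acf6_an.DegreeIndependence

theorem result :
    (∀ n d : ℕ, 2 ≤ n → 2 ≤ d → R n d = R n (d + 1)) ∧
      (∀ n d : ℕ, 2 ≤ n → 2 ≤ d →
        IsLeast (rkSet n d) (if n = 4 then 8 else (n + 1).choose 2 - 1)) := by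
  apply q2_main
  intro n hn d P M h
  exact SignPat.main n (by omega) Finset.univ 0 d P M (by simp) h

end Pool.Agent.Results.MP_39acf6_an.DegreeIndependence
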